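import Pool.Agent.ZP3.StmtsP

set_option autoImplicit false

/-!
# Squad ZP3, row F3B: finiteness from bounded level
-/

namespace Pool.Agent.ZP3.H92

open Polynomial Pool.Agent.ZPT

theorem f3b (hIC : ICStmt) (hIB : IBStmt) (hCF : CFStmt) (hCA : CAStmt) (hPF : PFStmt) :
    F3BStmt := by
  intro Psi hPC n P hP hdim hQ c hN hni
  obtain ⟨N, hN⟩ := hN
  -- the polynomials
  have hG : ∀ (m : ℕ) (i j : Fin n), ∃ G : MvPolynomial (Fin n) ℂ,
      (∀ m, IsAlgebraic ℚ (MvPolynomial.coeff m G)) ∧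
      ∀ x : Fin n → ℂ, MvPolynomial.eval x G =
        ev2 (Psi m) (x i + (c i : ℂ)) (x j + (c j : ℂ)) :=
    fun m i j => hPF n (Psi m) i j (c i) (c j)
  choose G hGa hGe using hG
  have hGP : ∀ m, 1 ≤ m → ∀ i j, i ≠ j → G m i j ∉ P := by
    intro m hm i j hij hmem
    refine hni i j hij fun x hx => ?_
    have h := hx _ hmem
    rw [hGe] at h
    exact hIB Psi hPC m hm _ _ h
  have hfin : ∀ m, 1 ≤ m → ∀ i j, i ≠ j →
      {x : Fin n → ℂ | x ∈ V P ∧ MvPolynomial.eval x (G m i j) = 0}.Finite :=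
    fun m hm i j hij => hCF n P hP hdim _ (hGP m hm i j hij)
  have halg : ∀ x : Fin n → ℂ, x ∈ V P → ∀ i j, i ≠ j →
      Isog (x i + (c i : ℂ)) (x j + (c j : ℂ)) → ∀ l, IsAlgebraic ℚ (x l) := by
    intro x hx i j hij h l
    obtain ⟨m, hm, h0⟩ := hIC Psi hPC _ _ h
    refine hCA n P hQ (G m i j) (hGa m i j) (hfin m hm i j hij) x hx ?_ l
    rw [hGe]
    exact h0
  have hbig : (⋃ m ∈ Finset.Icc 1 N, ⋃ u : Fin n, ⋃ v : Fin n,
      {x : Fin n → ℂ | u ≠ v ∧ x ∈ V P ∧ MvPolynomial.eval x (G m u v) = 0}).Finite := by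
    refine Set.Finite.biUnion (Finset.finite_toSet _) fun m hm => ?_
    have hm1 : 1 ≤ m := (Finset.mem_Icc.1 (Finset.mem_coe.1 hm)).1
    refine Set.finite_iUnion fun u => Set.finite_iUnion fun v => ?_
    by_cases huv : u = v
    · exact Set.finite_empty.subset fun x hx => absurd huv hx.1
    · exact (hfin m hm1 u v huv).subset fun x hx => hx.2
  refine hbig.subset ?_
  rintro x ⟨hx, hA⟩
  -- the coordinates are algebraic
  have hxa : ∀ l, IsAlgebraic ℚ (x l) := by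
    obtain ⟨i, j, k, hij, -, -, h1, -⟩ := hA
    exact halg x hx i j hij h1
  obtain ⟨y, hy⟩ : ∃ y : Fin n → Qb, x = fun i => (y i : ℂ) :=
    ⟨fun i => ⟨x i, (mem_algebraicClosure_iff).2 (hxa i)⟩, rfl⟩
  subst hy
  obtain ⟨u, v, huv, m, hm1, hmN, h0⟩ := hN y hx hA
  refine Set.mem_biUnion (Finset.mem_coe.2 (Finset.mem_Icc.2 ⟨hm1, hmN⟩))
    (Set.mem_iUnion.2 ⟨u, Set.mem_iUnion.2 ⟨v, huv, hx, ?_⟩⟩)
  rw [hGe]
  exact h0

end Pool.Agent.ZP3.H92
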